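import Mathlib

/-!
MP_008206: the arithmetic END of helper47's linear range, with the constant `3 (k - 2)`.
`hA`, `hB`, `hC`, `h0` are helper47's inequalities (A), (B), (C), (0) of 03:12Z.
-/

namespace Pool.SIFEnd

theorem end_case (w k d h kap F inc D : ℤ)
    (hF0 : 0 ≤ F) (hwk : w ≤ k - 3) (hD : 3 * (k - 2) ≤ D)
    (hkd : kap + d ≤ w) (hd : 1 ≤ d) (hk0 : 0 ≤ kap) (hh : d + 1 ≤ h) (hFD : F ≤ D - 1)
    (hA : w - kap + w * d - w * h + (D - 1 - kap) * h - d * F ≤ -1)
    (hB : w - kap + w * d - w * h + (w + 1 - d - inc) * F - (w - d) * (k - 1) ≤ -1)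
    (hC : w + w * d - 2 * kap - (w - inc) * h + F ≤ -1)
    (h0 : D * h ≤ w * (k - 2) - 1) : False := by
  have hw : 1 ≤ w := by linarith
  have hh0 : 0 < h := by linarith
  have hkp : 0 < k - 2 := by linarith
  -- 3 h < w
  have h3 : 3 * h < w := by
    by_contra hcon
    have hcon' : w ≤ 3 * h := not_lt.mp hcon
    have e1 : 3 * (k - 2) * h ≤ D * h := mul_le_mul_of_nonneg_right hD hh0.le
    have e2 : w * (k - 2) ≤ 3 * h * (k - 2) := mul_le_mul_of_nonneg_right hcon' hkp.le
    linarith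
  obtain ⟨δ, hδ⟩ : ∃ δ : ℤ, δ = D - 1 - 2 * w + d := ⟨_, rfl⟩
  have hδ1 : (k - 1) + d + 2 * (k - 3 - w) ≤ δ := by rw [hδ]; linarith
  have hδw : w + 2 + d ≤ δ := by linarith
  -- (A')
  have hA' : 1 + d + w * d + δ * h ≤ d * F := by
    have e1 : 0 ≤ (w - d - kap) * (h + 1) := mul_nonneg (by linarith) (by linarith)
    rw [hδ]
    linarith
  -- (A'')
  have hA'' : δ * (h - d) ≤ d * (w - d - 1) - 1 := by
    have e1 : d * F ≤ d * (D - 1) := mul_le_mul_of_nonneg_left hFD (by linarith)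
    have e2 : δ * (h - d) = δ * h - δ * d := by ring
    have e3 : δ * d = d * (D - 1) - 2 * w * d + d * d := by rw [hδ]; ring
    linarith
  have hhd : h - d < d := by
    by_contra hcon
    have hcon' : d ≤ h - d := not_lt.mp hcon
    have e1 : δ * d ≤ δ * (h - d) := mul_le_mul_of_nonneg_left hcon' (by linarith)
    have e2 : d * (w + 2 + d) ≤ d * δ := mul_le_mul_of_nonneg_left hδw (by linarith)
    have e3 : 0 ≤ d * (3 + 2 * d) := mul_nonneg (by linarith) (by linarith)
    linarith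
  -- (C')
  have hC' : inc * h ≤ w * (h - d) + w - 2 * d - 1 - F := by linarith
  -- (B')
  have hB' : (w + 1 - d - inc) * F ≤ (w - d) * (k - 1) + w * (h - d) - 1 := by linarith
  -- multiply
  have hBh : (w + 1 - d - inc) * F * h ≤ ((w - d) * (k - 1) + w * (h - d) - 1) * h :=
    mul_le_mul_of_nonneg_right hB' hh0.le
  have hCF : inc * h * F ≤ (w * (h - d) + w - 2 * d - 1 - F) * F :=
    mul_le_mul_of_nonneg_right hC' hF0
  have hG : (d * (w - h) + h - w + 2 * d + 1 + F) * F
      ≤ ((w - d) * (k - 1) + w * (h - d) - 1) * h := by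
    have e1 : (w + 1 - d - inc) * F * h
        = ((w + 1 - d) * h) * F - inc * h * F := by ring
    linarith
  -- F ≥ w + 1
  have hFw : w + 1 ≤ F := by
    by_contra hcon
    have hcon' : F ≤ w := by linarith [not_le.mp hcon]
    have e1 : d * F ≤ d * w := mul_le_mul_of_nonneg_left hcon' (by linarith)
    have e2 : 0 ≤ δ * h := mul_nonneg (by linarith) hh0.le
    linarith
  have hwh : 0 < w - h := by linarith
  have hl1 : d * (w - h) * F ≤ (d * (w - h) + h - w + 2 * d + 1 + F) * F :=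
    mul_le_mul_of_nonneg_right (by linarith) hF0
  have hl2 : (w - h) * (1 + d + w * d + δ * h) ≤ (w - h) * (d * F) :=
    mul_le_mul_of_nonneg_left hA' hwh.le
  have hl3 : (w - h) * h * ((k - 1) + d + 2 * (k - 3 - w)) ≤ (w - h) * h * δ :=
    mul_le_mul_of_nonneg_left hδ1 (mul_nonneg hwh.le hh0.le)
  obtain ⟨q, hq⟩ : ∃ q : ℤ, q = k - 3 - w := ⟨_, rfl⟩
  have hq0 : 0 ≤ q := by rw [hq]; linarith
  have hkq : k = w + 3 + q := by rw [hq]; ring
  subst hkq
  -- final comparison
  have f1 : 0 ≤ h * (q * (2 * (w - h) - (h - d))) :=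
    mul_nonneg hh0.le (mul_nonneg hq0 (by linarith))
  have f2 : 2 * h * (h - d) * (w + 1) ≤ 2 * h * d * (w + 1) := by
    have e0 : 0 ≤ 2 * h * (w + 1) := mul_nonneg (by linarith) (by linarith)
    have e1 : 0 ≤ 2 * h * (w + 1) * (d - (h - d)) := mul_nonneg e0 (by linarith)
    linarith
  have f3 : 2 * h * (d * (w + 1)) ≤ (w - h) * (d * (w + 1)) :=
    mul_le_mul_of_nonneg_right (by linarith) (mul_nonneg (by linarith) (by linarith))
  have f4 : 0 ≤ h * d * (w - h) := mul_nonneg (mul_nonneg hh0.le (by linarith)) hwh.le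
  linarith

/-- (0), (A), (B), (C) give `0 ≤ T` when `D ≥ 3 (k - 2)`. -/
theorem end_all (T w k d h kap F inc D : ℤ)
    (hd0 : 0 ≤ d) (hh0 : 0 ≤ h) (hk0 : 0 ≤ kap) (hF0 : 0 ≤ F) (hinc : 0 ≤ inc)
    (hwk : w ≤ k - 3) (hD : 3 * (k - 2) ≤ D)
    (hkd : kap + d ≤ w) (hFD : F ≤ D - 1) (hdF : d = 0 → F = 0)
    (hA : w - kap + w * d - w * h + (D - 1 - kap) * h - d * F ≤ T)
    (hB : w - kap + w * d - w * h + (w + 1 - d - inc) * F - (w - d) * (k - 1) ≤ T)
    (hC : w + w * d - 2 * kap - (w - inc) * h + F ≤ T)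
    (h0 : D * h ≤ w * (k - 2) + T) : 0 ≤ T := by
  by_contra hcon
  have hT : T ≤ -1 := by linarith [not_le.mp hcon]
  have hw : 0 ≤ w := by linarith
  have hDw : 3 * w + 3 ≤ D := by linarith
  rcases hd0.eq_or_lt with hd | hd
  · subst hd
    have hF : F = 0 := hdF rfl
    subst hF
    have e1 : 0 ≤ (D - 1 - kap - w) * h := mul_nonneg (by linarith) hh0
    linarith
  · have hd1 : 1 ≤ d := hd
    have hih : 0 ≤ inc * h := mul_nonneg hinc hh0
    rcases lt_trichotomy h d with hlt | heq | hgt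
    · -- h < d
      have e1 : 0 ≤ w * (d - h - 1) := mul_nonneg hw (by linarith)
      linarith
    · -- h = d
      subst heq
      have hFw : w ≤ F := by
        by_contra hc
        have hc' : F ≤ w - 1 := by linarith [not_le.mp hc]
        have e1 : h * F ≤ h * (w - 1) := mul_le_mul_of_nonneg_left hc' hd0
        have e2 : 0 ≤ (w - h - kap) * (h + 1) := mul_nonneg (by linarith) (by linarith)
        have e3 : h * (w + 2 + h) ≤ h * (D - 1 - 2 * w + h) :=
          mul_le_mul_of_nonneg_left (by linarith) hd0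
        have e4 : 0 ≤ h * (w + 2 + h) := mul_nonneg hd0 (by linarith)
        linarith
      linarith
    · exact end_case w k d h kap F inc D hF0 hwk hD hkd hd1 hk0 hgt hFD
        (by linarith) (by linarith) (by linarith) (by linarith)

end Pool.SIFEnd
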